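import Pool.Agent.Helper29.MSTProof

set_option autoImplicit false

namespace Pool.Agent.Results.MP_3865e9_co.SixTransfer

open Pool.Agent.Helper29.MST

/-- There is an unweighted oriented graph with multiple state transfer on a set of six vertices. -/
theorem result : ∃ (V : Type) (_ : Fintype V) (_ : DecidableEq V) (X : OrientedGraph V)
    (S : Finset V), S.card = 6 ∧ X.MultipleStateTransfer S :=
  main

end Pool.Agent.Results.MP_3865e9_co.SixTransfer
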